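import Pool.Agent.H506R3.Lau.L8
set_option autoImplicit false
set_option maxSynthPendingDepth 6
open Matrix Topology Filter
namespace Pool.Agent.Results.MP_7dd29b_gt.DimensionThree

open H506R3.Lau

lemma it2 (E : (Fin 3 → ℝ) → ℝ) (x a b : Fin 3 → ℝ) :
    iteratedFDeriv ℝ 2 E x ![a, b] = g E x a b := by
  rw [iteratedFDeriv_two_apply]; rfl

lemma it3 (E : (Fin 3 → ℝ) → ℝ) (x a b c : Fin 3 → ℝ) :
    iteratedFDeriv ℝ 3 E x ![a, b, c] = C E x a b c := by
  have h : iteratedFDeriv ℝ 3 E x ![a, b, c] = iteratedFDeriv ℝ 2 (fun y => fderiv ℝ E y) x (Fin.init ![a,b,c]) (![a,b,c] (Fin.last 2)) :=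
    iteratedFDeriv_succ_apply_right ![a,b,c]
  rw [h, iteratedFDeriv_two_apply]
  rfl

/-- The Hessian matrix of `F ^ 2 / 2` at `x`, i.e. the components `g_ij(x)` of the Hessian metric. -/
noncomputable def hess (F : (Fin 3 → ℝ) → ℝ) (x : Fin 3 → ℝ) : Matrix (Fin 3) (Fin 3) ℝ :=
  Matrix.of fun i j : Fin 3 => iteratedFDeriv ℝ 2 (fun y : Fin 3 → ℝ => F y ^ 2 / 2) x
    ![Pi.single i (1 : ℝ), Pi.single j (1 : ℝ)]

/-- The third partial derivatives of `F ^ 2 / 2` at `x`. -/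
noncomputable def cub (F : (Fin 3 → ℝ) → ℝ) (x : Fin 3 → ℝ) (i j k : Fin 3) : ℝ :=
  iteratedFDeriv ℝ 3 (fun y : Fin 3 → ℝ => F y ^ 2 / 2) x
    ![Pi.single i (1 : ℝ), Pi.single j (1 : ℝ), Pi.single k (1 : ℝ)]

/-- **Laugwitz' conjecture in dimension three.**  A Minkowski norm on `ℝ³` (smooth and strongly convex
away from the origin, positively homogeneous, not assumed to be even) whose Hessian metric is flat
is Euclidean. -/
theorem result (F : (Fin 3 → ℝ) → ℝ)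
    (hsm : ContDiffOn ℝ ((⊤ : ℕ∞) : WithTop ℕ∞) F {x | x ≠ 0})
    (hpos : ∀ x : Fin 3 → ℝ, x ≠ 0 → 0 < F x)
    (hhom : ∀ (t : ℝ) (x : Fin 3 → ℝ), 0 ≤ t → F (t • x) = t * F x)
    (hpd : ∀ x : Fin 3 → ℝ, x ≠ 0 → (hess F x).PosDef)
    (hflat : ∀ x : Fin 3 → ℝ, x ≠ 0 → ∀ i j k l : Fin 3,
      ∑ p : Fin 3, ∑ q : Fin 3, (hess F x)⁻¹ p q *
        (cub F x i k p * cub F x j l q - cub F x i l p * cub F x j k q) = 0) :
    ∃ A : Matrix (Fin 3) (Fin 3) ℝ, A.PosDef ∧ ∀ x : Fin 3 → ℝ, F x = Real.sqrt (x ⬝ᵥ A *ᵥ x) := by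
  set E : (Fin 3 → ℝ) → ℝ := fun y => F y ^ 2 / 2 with hE
  have hFs : ∀ x : Fin 3 → ℝ, x ≠ 0 → ContDiffAt ℝ ((⊤ : ℕ∞) : WithTop ℕ∞) F x := by
    intro x hx
    exact (hsm x hx).contDiffAt (isOpen_ne.mem_nhds hx)
  have hEs : ∀ x : Fin 3 → ℝ, x ≠ 0 → ContDiffAt ℝ ((⊤ : ℕ∞) : WithTop ℕ∞) E x := by
    intro x hx
    exact ((hFs x hx).pow 2).div_const 2
  simp only [hess, cub, it2, it3] at hpd hflat
  have hGm : ∀ x : Fin 3 → ℝ, (Matrix.of fun i j : Fin 3 => g E x (Pi.single i (1 : ℝ)) (Pi.single j (1 : ℝ))) = G E x := by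
    intro x; rfl
  have hPD : ∀ x : Fin 3 → ℝ, x ≠ 0 → (G E x).PosDef := hpd
  have D : Dat E := by
    refine ⟨hEs, ?_, ?_⟩
    · intro t x ht
      simp only [hE]
      rw [hhom t x ht.le]; ring
    · intro x hx v hv
      have h1 := (hPD x hx).dotProduct_mulVec_pos hv
      rw [gexp]
      have h2 : star v ⬝ᵥ (G E x) *ᵥ v = ∑ p, ∑ q, v p * v q * G E x p q := by
        simp only [dotProduct, Matrix.mulVec, Finset.mul_sum]
        refine Finset.sum_congr rfl fun p _ => Finset.sum_congr rfl fun q _ => ?_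
        simp; ring
      rw [← h2]; exact h1
  have Fl : Flat E := fun x hx i j k l => hflat x hx i j k l
  have hC0 : ∀ x : Fin 3 → ℝ, x ≠ 0 → C E x = 0 := by
    intro x hx
    by_contra h
    exact core D Fl hx h
  -- the Hessian is constant
  have hconn : IsPreconnected ({0}ᶜ : Set (Fin 3 → ℝ)) := by
    have hrk : 1 < Module.rank ℝ (Fin 3 → ℝ) := by
      rw [rank_fun']
      simp
    exact (isConnected_compl_singleton_of_one_lt_rank hrk 0).isPreconnected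
  have hconst : ∀ x y : Fin 3 → ℝ, x ≠ 0 → y ≠ 0 → g E x = g E y := by
    intro x y hx hy
    refine isOpen_compl_singleton.is_const_of_fderiv_eq_zero (𝕜 := ℝ) hconn (f := g E) ?_ ?_ hx hy
    · intro z hz
      exact (hd_g D hz).differentiableAt.differentiableWithinAt
    · intro z hz
      exact hC0 z hz
  have hz1 : (Pi.single 0 (1:ℝ) : Fin 3 → ℝ) ≠ 0 := by
    intro h
    have := congrFun h 0
    simp at this
  refine ⟨G E (Pi.single 0 1), hPD _ hz1, ?_⟩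
  intro x
  have hquad : x ⬝ᵥ (G E (Pi.single 0 1)) *ᵥ x = g E (Pi.single 0 1) x x := by
    rw [gexp]
    simp only [dotProduct, Matrix.mulVec, Finset.mul_sum]
    refine Finset.sum_congr rfl fun p _ => Finset.sum_congr rfl fun q _ => ?_
    ring
  rw [hquad]
  by_cases hx : x = 0
  · have h0 : F x = 0 := by
      have := hhom 0 x le_rfl
      rw [hx] at this ⊢
      simpa using this
    rw [h0, hx]; simp
  · rw [hconst _ x hz1 hx, g_xx D hx]
    have h3 : 2 * E x = F x ^ 2 := by simp only [hE]; ring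
    rw [h3, Real.sqrt_sq (hpos x hx).le]

end Pool.Agent.Results.MP_7dd29b_gt.DimensionThree
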